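import Pool.Agent.helper17.EXT.SpecJ

/-!
# Row JSY: a Sylow 2-subgroup containing the unipotent group and a conjugate of the involution which fixes it
-/

set_option autoImplicit false

open Finset

namespace Pool.Agent.EXT

open Pool.Agent.EXC

open Pointwise in
lemma JSY_grp {G : Type} [Group G] [Finite G] (x : MulAut G) (hx : x * x = 1) (U : Subgroup G) (hU : IsPGroup 2 U) :
    ∃ (c : G) (P : Subgroup G), IsPGroup 2 P ∧ U ≤ P ∧ ∀ f ∈ P, (MulAut.conj c * x * (MulAut.conj c)⁻¹) f ∈ P := by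
  classical
  haveI : Fact (Nat.Prime 2) := ⟨Nat.prime_two⟩
  haveI : Fintype (Sylow 2 G) := Fintype.ofFinite _
  have hodd : ¬ 2 ∣ Fintype.card (Sylow 2 G) := by
    have h1 := card_sylow_modEq_one 2 G
    rw [Nat.card_eq_fintype_card] at h1
    unfold Nat.ModEq at h1
    omega
  have hσ : (MulAction.toPerm x : Equiv.Perm (Sylow 2 G)) ^ 2 ^ 1 = 1 := by
    apply Equiv.ext
    intro Q
    rw [pow_one, pow_two]
    show x • x • Q = Q
    rw [← mul_smul, hx, one_smul]
  obtain ⟨Q, hQ⟩ := Equiv.Perm.exists_fixed_point_of_prime hodd hσ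
  have hQ' : x • Q = Q := hQ
  obtain ⟨P, hP⟩ := hU.exists_le_sylow
  obtain ⟨c, hc⟩ := MulAction.exists_smul_eq G Q P
  have hxQ : ∀ g ∈ Q, x g ∈ Q := by
    intro g hg
    have h1 : x • g ∈ x • (Q : Subgroup G) := Subgroup.smul_mem_pointwise_smul _ _ _ hg
    rw [← Sylow.pointwise_smul_def, hQ'] at h1
    exact h1
  refine ⟨c, P, P.isPGroup', hP, ?_⟩
  intro f hf
  have hc' : (P : Subgroup G) = MulAut.conj c • (Q : Subgroup G) := by
    rw [← hc]; rfl
  have hf' : f ∈ MulAut.conj c • (Q : Subgroup G) := by rw [← hc']; exact hf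
  have h2 : (MulAut.conj c)⁻¹ • f ∈ (Q : Subgroup G) := Subgroup.mem_pointwise_smul_iff_inv_smul_mem.1 hf'
  have h3 : x ((MulAut.conj c)⁻¹ f) ∈ Q := hxQ _ h2
  have h4 : MulAut.conj c • x ((MulAut.conj c)⁻¹ f) ∈ MulAut.conj c • (Q : Subgroup G) :=
    Subgroup.smul_mem_pointwise_smul _ _ _ h3
  rw [← hc'] at h4
  exact h4

theorem JSY (_hSGR : SGR_stmt) (_hGFX : GFX_stmt) : JSY_stmt := by
  intro K _ _ h2 x hx
  haveI : Finite (Lm C6 K) := by
    haveI : Finite (Rt C6) := inferInstance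
    infer_instance
  haveI : Finite (LT (RingEquiv.refl K)) := inferInstance
  haveI : Finite (Equiv.Perm (LT (RingEquiv.refl K))) := inferInstance
  haveI : Finite (GF (RingEquiv.refl K)) := inferInstance
  have hchar : CharP K 2 := (CharP.charP_iff_prime_eq_zero Nat.prime_two).2 (by exact_mod_cast h2)
  let U : Subgroup (GF (RingEquiv.refl K)) :=
    { carrier := {f | InU (f : Equiv.Perm (LT (RingEquiv.refl K)))}
      one_mem' := ⟨1, one_mem _, one_mem _, fun _ => rfl⟩
      mul_mem' := by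
        rintro f f' ⟨g, hg, hg2, h⟩ ⟨g', hg', hg2', h'⟩
        refine ⟨g * g', mul_mem hg hg', mul_mem hg2 hg2', fun v => ?_⟩
        have e : ((f * f' : GF (RingEquiv.refl K)) : Equiv.Perm (LT (RingEquiv.refl K))) v =
          (f : Equiv.Perm (LT (RingEquiv.refl K))) ((f' : Equiv.Perm (LT (RingEquiv.refl K))) v) := rfl
        rw [e, h, h']; rfl
      inv_mem' := by
        rintro f ⟨g, hg, hg2, h⟩
        refine ⟨g⁻¹, inv_mem hg, inv_mem hg2, fun v => ?_⟩
        have e := h ((f : Equiv.Perm (LT (RingEquiv.refl K)))⁻¹ v)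
        have e2 : (f : Equiv.Perm (LT (RingEquiv.refl K))) ((f : Equiv.Perm (LT (RingEquiv.refl K)))⁻¹ v) = v :=
          (f : Equiv.Perm (LT (RingEquiv.refl K))).apply_symm_apply v
        rw [e2] at e
        have e3 : ((f⁻¹ : GF (RingEquiv.refl K)) : Equiv.Perm (LT (RingEquiv.refl K))) v =
          (f : Equiv.Perm (LT (RingEquiv.refl K)))⁻¹ v := rfl
        rw [e3, e]
        exact (LinearEquiv.symm_apply_apply g _).symm }
  have hU : IsPGroup 2 U := by
    rintro ⟨f, g, hg, hg2, h⟩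
    obtain ⟨k, hk⟩ := f_UPG 6 C6 K 2 Nat.prime_two hchar g hg2
    refine ⟨k, ?_⟩
    apply Subtype.ext
    show f ^ 2 ^ k = 1
    have hpow : ∀ (m : ℕ) (v : LT (RingEquiv.refl K)),
        ((((f ^ m : GF (RingEquiv.refl K)) : Equiv.Perm (LT (RingEquiv.refl K))) v : LT (RingEquiv.refl K)) : Lm C6 K) =
          (g ^ m) (v : Lm C6 K) := by
      intro m
      induction m with
      | zero => intro v; rfl
      | succ m ih =>
        intro v
        have e : ((f ^ (m + 1) : GF (RingEquiv.refl K)) : Equiv.Perm (LT (RingEquiv.refl K))) v =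
          ((f ^ m : GF (RingEquiv.refl K)) : Equiv.Perm (LT (RingEquiv.refl K)))
            ((f : Equiv.Perm (LT (RingEquiv.refl K))) v) := by
          rw [pow_succ]; rfl
        rw [e, ih, h, pow_succ]
        rfl
    apply Subtype.ext
    apply Equiv.ext
    intro v
    apply Subtype.ext
    rw [hpow, hk]
    rfl
  obtain ⟨c, P, hP, hUP, hxP⟩ := JSY_grp x hx U hU
  exact ⟨c, P, hP, fun f hf => hUP hf, hxP⟩

end Pool.Agent.EXT
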