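import Pool.Agent.helper53.EXT.SpecM

/-!
# ftm:NMG: the root elements with parameter one and one further parameter generate
-/

set_option autoImplicit false

open Finset

namespace Pool.Agent.EXT

open Pool.Agent.EXC

theorem NMG_LR1 (hRTF : RTF_stmt) : LR (-sr 1 : Fin 6 → ℤ) := by
  obtain ⟨_, _, _, h4, h5, _⟩ := hRTF
  refine ⟨?_, ?_⟩
  · rw [ip_neg_left, ip_neg_right, neg_neg]
    decide +kernel
  · rw [h4, h5]
    rfl

theorem NMG_dif (hRTF : RTF_stmt) (α γ : Fin 6 → ℤ) (hα : LR α) (hγ : LR γ) (h : ip C6 α γ = 1) : LR (γ - α) ∧ ip C6 α (γ - α) = -1 := by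
  obtain ⟨_, _, h3, h4, _⟩ := hRTF
  refine ⟨⟨?_, ?_⟩, ?_⟩
  · rw [ip_sub_left, ip_sub_right, ip_sub_right, hα.1, hγ.1, h, ip_comm C6 γ α, h]
    norm_num
  · rw [sub_eq_add_neg, h3, h4, hα.2, hγ.2]
  · rw [ip_sub_right, hα.1, h]
    norm_num

theorem NMG (hRTF : RTF_stmt) (hNMR : NMR_stmt) (hNMA : NMA_stmt) (hNMB : NMB_stmt) : NMG_stmt := by
  intro K _ h2 H hH t ht htH
  obtain ⟨a1, a2, a3, _⟩ := hNMA K h2
  obtain ⟨b1, _, b3⟩ := hNMB K h2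
  obtain ⟨r1, r2, r3, _, r5, _⟩ := hNMR
  have hcm : ∀ x y : Lm C6 K ≃ₗ[K] Lm C6 K, x ∈ H → y ∈ H → x * y * x⁻¹ * y⁻¹ ∈ H := fun x y hx hy =>
    H.mul_mem (H.mul_mem (H.mul_mem hx hy) (H.inv_mem hx)) (H.inv_mem hy)
  -- one step
  have step : ∀ (α γ : Fin 6 → ℤ) (s : K), LR α → LR γ → ip C6 α γ = 1 → Rt α s ∈ H → Rt γ s ∈ H := by
    intro α γ s hα hγ h hs
    obtain ⟨h1, h3⟩ := NMG_dif hRTF α γ hα hγ h
    have h4 := b1 α (γ - α) hα h1 h3 s 1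
    rw [mul_one, add_sub_cancel] at h4
    rw [← h4]
    exact hcm _ _ hs (hH _ h1.1)
  have hA : ∀ γ, LR γ → Rt γ t ∈ H := by
    intro γ hγ
    obtain ⟨w1, w2, h3, h4, h5, h6, h7⟩ := r1 γ hγ
    exact step w2 γ t h4 hγ h7 (step w1 w2 t h3 h4 h6 (step _ w1 t (NMG_LR1 hRTF) h3 h5 htH))
  have hpow : ∀ k : ℕ, ∀ γ, LR γ → Rt γ (t ^ k) ∈ H := by
    intro k
    induction k with
    | zero =>
      intro γ hγ
      rw [pow_zero]
      exact hH γ hγ.1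
    | succ k ih =>
      intro γ hγ
      obtain ⟨α, β, h3, h4, h5, h6⟩ := r2 γ hγ
      have h7 := b1 α β h3 h4 h5 (t ^ k) t
      rw [h6, pow_succ, ← h7]
      exact hcm _ _ (ih α h3) (hA β h4)
  have hL : ∀ (s : K) (γ : Fin 6 → ℤ), LR γ → Rt γ s ∈ H := by
    intro s γ hγ
    by_cases hs : s = 0
    · rw [hs, (a1 γ hγ.1).2.1]
      exact H.one_mem
    · obtain ⟨k, hk⟩ := ht s hs
      rw [hk]
      exact hpow k γ hγ
  have hS : ∀ (s : K) (γ : Fin 6 → ℤ), SR γ → Rt γ s ∈ H := by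
    intro s γ hγ
    obtain ⟨α, β, h3, h4, h5, h6⟩ := r3 γ hγ
    have h7 := b3 α β h3 h4 h5 s 1
    obtain ⟨_, h8⟩ := r5 α β h3 h4 h5
    have h9 := hcm _ _ (hL s α h3) (hH β h4.1)
    rw [h7, one_pow, mul_one] at h9
    rw [h6]
    exact (Subgroup.mul_mem_cancel_right H (hL s _ h8)).1 h9
  unfold GS
  rw [Subgroup.closure_le]
  rintro g (⟨β, s, hβ, _, hg⟩ | ⟨γ, s, hγ, hg⟩)
  · rw [(a2 β hβ s g).1 hg]
    exact hL s β hβ
  · rw [(a3 γ hγ s g).1 hg]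
    exact hS s γ hγ

end Pool.Agent.EXT
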