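import Pool.Agent.helper53.EXT.SpecM
import Pool.Agent.helper43.EXT.JSI

/-!
# ftm:NMZ: ten conjugates of a graph involution
-/

set_option autoImplicit false

open Finset

namespace Pool.Agent.EXT

open Pool.Agent.EXC

theorem NMZ (hSGR : SGR_stmt) (hGFX : GFX_stmt) (hESF : ESF_stmt) (hFXF : FXF_stmt) (hJSH : JSH_stmt) (hJSY : JSY_stmt) (hJXT : JXT_stmt) (hJGR : JGR_stmt) (hNMF : NMF_stmt) : NMZ_stmt := by
  intro K _ _ h2 x hx hsw
  obtain ⟨c, P, hP, hU, hPx⟩ := hJSY K h2 x hx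
  have hx' : (MulAut.conj c * x * (MulAut.conj c)⁻¹) * (MulAut.conj c * x * (MulAut.conj c)⁻¹) = 1 := by
    have h1 : (MulAut.conj c * x * (MulAut.conj c)⁻¹) * (MulAut.conj c * x * (MulAut.conj c)⁻¹) =
        MulAut.conj c * (x * x) * (MulAut.conj c)⁻¹ := by group
    rw [h1, hx, mul_one, mul_inv_cancel]
  have hsw' := JSI_swf hGFX hESF hJSH K h2 x c hsw
  obtain ⟨t, g, hg⟩ := hNMF K h2 _ (fun f => (hJXT K h2 _ hx' hsw' P hP hU hPx f).1)
  obtain ⟨⟨h, hh⟩, h10⟩ := Pool.Agent.EXC.GGA (GF (RingEquiv.refl K)) _ t g hg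
  refine ⟨⟨fun i => h i * c, ?_⟩, ?_⟩
  · have e : (fun i => MulAut.conj (h i * c) * x * (MulAut.conj (h i * c))⁻¹) =
        fun i => MulAut.conj (h i) * (MulAut.conj c * x * (MulAut.conj c)⁻¹) * (MulAut.conj (h i))⁻¹ := by
      funext i
      rw [map_mul]
      group
    rw [e]
    exact hh
  · intro r hr hrG
    exact (hJGR _ x r 10).2 c (h10 (hFXF K (RingEquiv.refl K) fun _ => rfl).2 r hr hrG)

end Pool.Agent.EXT
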